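import Pool.Agent.Lib.MP_6bc78b_nt.GP.Iface
import Pool.Agent.Lib.MP_6bc78b_nt.H11.Window

/-! Project GP, module GRW: polynomial growth of `D` in closed vertical strips to the right of the
critical line, under RH. -/

set_option autoImplicit false

open Complex Filter Topology MeasureTheory Set

namespace Pool.Agent.Lib.MP_6bc78b_nt.GP.H16

open Pool.Agent.Lib.MP_6bc78b_nt.H11

/-- `D` in terms of `ζ` and the quotients `ζ^{(k)}/ζ`. -/
lemma df_eq {A B : ℝ} {s : ℂ} (h : riemannZeta s ≠ 0) :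
    DF A B s = riemannZeta s * (DZ 1 s ^ 2 - (DZ 2 s / 2 - A * DZ 1 s + B)) := by
  have e1 : iteratedDeriv 1 riemannZeta s = deriv riemannZeta s := by rw [iteratedDeriv_one]
  have e2 : iteratedDeriv 2 riemannZeta s = deriv (deriv riemannZeta) s := by
    rw [iteratedDeriv_succ, iteratedDeriv_one]
  unfold DF FF F0 DZ
  rw [e1, e2]
  field_simp

lemma zeta_le {s : ℂ} (h1 : (1 : ℝ) / 2 ≤ s.re) (h2 : s.re ≤ 2) (h3 : 3 ≤ |s.im|) :
    ‖riemannZeta s‖ ≤ 22 * (1 + |s.im|) := by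
  have hs1 : s ≠ 1 := by
    intro h
    rw [h] at h3
    simp at h3
    linarith
  have h4 := zeta_growth (s := s) (by linarith) hs1
  have h5 : 3 ≤ ‖s - 1‖ := by
    have := Complex.abs_im_le_norm (s - 1)
    simp only [Complex.sub_im, Complex.one_im, sub_zero] at this
    linarith
  have h6 : ‖s‖ ≤ 2 + |s.im| := by
    have := Complex.norm_le_abs_re_add_abs_im s
    rw [abs_of_nonneg (by linarith : (0 : ℝ) ≤ s.re)] at this
    linarith
  have h7 : ‖s‖ / ‖s - 1‖ ≤ ‖s‖ := by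
    rw [div_le_iff₀ (by linarith)]
    nlinarith [norm_nonneg s]
  linarith

/-- **GRW.** -/
theorem grw : GRWStatement := by
  intro hRH A B D hD σ₀ hσ
  obtain ⟨hdiff, hDF⟩ := hD
  -- the compact part
  have hcomp : IsCompact ((Icc σ₀ 2) ×ℂ (Icc (-3) 3)) := isCompact_Icc.reProdIm isCompact_Icc
  have hsub : ((Icc σ₀ 2) ×ℂ (Icc (-3) 3)) ⊆ HP := by
    intro s hs
    rw [Complex.mem_reProdIm] at hs
    have := hs.1.1
    show 1 / 2 < s.re
    linarith
  obtain ⟨M, hM⟩ := hcomp.exists_bound_of_continuousOn (hdiff.continuousOn.mono hsub)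
  -- the tail
  set δ : ℝ := min (σ₀ - 1 / 2) 1 with hδ
  have hδ0 : 0 < δ := lt_min (by linarith) one_pos
  have hδ1 : δ ≤ 1 := min_le_right _ _
  have hδσ : 1 / 2 + δ ≤ σ₀ := by have := min_le_left (σ₀ - 1 / 2) 1; linarith
  set Q : ℝ := 2 * KZ / δ with hQ
  have hKZ : 0 < KZ := by unfold KZ; norm_num
  have hQ0 : 0 < Q := by positivity
  set E : ℝ := Real.exp 1 with hE
  have hE0 : 0 < E := Real.exp_pos 1
  set C₁ : ℝ := 22 * ((E * Q) ^ 2 + (E * 2 * Q ^ 2 / 2 + |A| * (E * Q) + |B|)) with hC₁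
  have hC₁0 : 0 ≤ C₁ := by positivity
  refine ⟨|M| + C₁ + 1, by positivity, ?_⟩
  intro s hs1 hs2
  have hX : (1 : ℝ) ≤ 1 + |s.im| := by have := abs_nonneg s.im; linarith
  have hX4 : (1 : ℝ) ≤ (1 + |s.im|) ^ 4 := one_le_pow₀ hX
  rcases le_or_gt |s.im| 3 with h3 | h3
  · have hs : s ∈ ((Icc σ₀ 2) ×ℂ (Icc (-3) 3)) := by
      rw [Complex.mem_reProdIm]
      exact ⟨⟨hs1, hs2⟩, abs_le.mp h3⟩
    have h4 := hM s hs
    have h5 : ‖D s‖ ≤ |M| + C₁ + 1 := by
      have := le_abs_self M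
      linarith
    calc ‖D s‖ ≤ (|M| + C₁ + 1) * 1 := by linarith
      _ ≤ (|M| + C₁ + 1) * (1 + |s.im|) ^ 4 := by gcongr
  · have hsHP : s ∈ HP := by
      show 1 / 2 < s.re
      linarith
    have hs1' : s ≠ 1 := by
      intro h
      rw [h] at h3
      simp at h3
      linarith
    have hne : riemannZeta s ≠ 0 := zeta_ne_zero_of_RH hRH (by linarith)
    rw [hDF s hsHP hs1', df_eq hne, norm_mul]
    have hz := zeta_le (s := s) (by linarith) hs2 h3.le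
    set X : ℝ := 1 + |s.im| with hXd
    have hlog : Real.log |s.im| ≤ X := by
      have := Real.log_le_sub_one_of_pos (show 0 < |s.im| by linarith)
      linarith
    have hlog0 : 0 ≤ Real.log |s.im| := Real.log_nonneg (by linarith)
    have hq : 2 * KZ * Real.log |s.im| / δ ≤ Q * X := by
      have : Q * X = 2 * KZ * X / δ := by rw [hQ]; ring
      rw [this]
      gcongr
    have hq0 : 0 ≤ 2 * KZ * Real.log |s.im| / δ := by positivity
    have hd1 : ‖DZ 1 s‖ ≤ E * Q * X := by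
      have h := DZ_pointwise hRH 1 hδ0 hδ1 (by linarith) (by linarith) h3.le (s := s)
      simp only [Nat.factorial_one, Nat.cast_one, mul_one, pow_one] at h
      calc ‖DZ 1 s‖ ≤ E * (2 * KZ * Real.log |s.im| / δ) := h
        _ ≤ E * (Q * X) := by gcongr
        _ = E * Q * X := by ring
    have hd2 : ‖DZ 2 s‖ ≤ E * 2 * Q ^ 2 * X ^ 2 := by
      have h := DZ_pointwise hRH 2 hδ0 hδ1 (by linarith) (by linarith) h3.le (s := s)
      have e2 : ((Nat.factorial 2 : ℕ) : ℝ) = 2 := by norm_num [Nat.factorial]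
      rw [e2] at h
      calc ‖DZ 2 s‖ ≤ E * 2 * (2 * KZ * Real.log |s.im| / δ) ^ 2 := h
        _ ≤ E * 2 * (Q * X) ^ 2 := by gcongr
        _ = E * 2 * Q ^ 2 * X ^ 2 := by ring
    have hXX : X ≤ X ^ 2 := by nlinarith
    have hX1 : (1 : ℝ) ≤ X ^ 2 := one_le_pow₀ hX
    have hmain : ‖DZ 1 s ^ 2 - (DZ 2 s / 2 - A * DZ 1 s + B)‖ ≤
        ((E * Q) ^ 2 + (E * 2 * Q ^ 2 / 2 + |A| * (E * Q) + |B|)) * X ^ 2 := by
      have n1 : ‖DZ 1 s ^ 2 - (DZ 2 s / 2 - A * DZ 1 s + B)‖ ≤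
          ‖DZ 1 s‖ ^ 2 + (‖DZ 2 s‖ / 2 + |A| * ‖DZ 1 s‖ + |B|) := by
        refine (norm_sub_le _ _).trans ?_
        rw [norm_pow]
        refine add_le_add le_rfl ?_
        refine (norm_add_le _ _).trans ?_
        have hB : ‖(B : ℂ)‖ = |B| := by rw [Complex.norm_real, Real.norm_eq_abs]
        rw [hB]
        refine add_le_add ?_ le_rfl
        refine (norm_sub_le _ _).trans ?_
        rw [norm_div, norm_mul, Complex.norm_real, Real.norm_eq_abs]
        simp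
      have n2 : ‖DZ 1 s‖ ^ 2 ≤ (E * Q) ^ 2 * X ^ 2 := by
        calc ‖DZ 1 s‖ ^ 2 ≤ (E * Q * X) ^ 2 := by gcongr
          _ = (E * Q) ^ 2 * X ^ 2 := by ring
      have n3 : ‖DZ 2 s‖ / 2 ≤ (E * 2 * Q ^ 2 / 2) * X ^ 2 := by
        have : (E * 2 * Q ^ 2 / 2) * X ^ 2 = (E * 2 * Q ^ 2 * X ^ 2) / 2 := by ring
        rw [this]
        linarith
      have n4 : |A| * ‖DZ 1 s‖ ≤ (|A| * (E * Q)) * X ^ 2 := by
        have hA := abs_nonneg A
        calc |A| * ‖DZ 1 s‖ ≤ |A| * (E * Q * X) := by gcongr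
          _ = (|A| * (E * Q)) * X := by ring
          _ ≤ (|A| * (E * Q)) * X ^ 2 := by gcongr
      have n5 : |B| ≤ |B| * X ^ 2 := le_mul_of_one_le_right (abs_nonneg B) hX1
      have e : ((E * Q) ^ 2 + (E * 2 * Q ^ 2 / 2 + |A| * (E * Q) + |B|)) * X ^ 2 =
          (E * Q) ^ 2 * X ^ 2 + ((E * 2 * Q ^ 2 / 2) * X ^ 2 + (|A| * (E * Q)) * X ^ 2 +
            |B| * X ^ 2) := by ring
      rw [e]
      linarith
    set K₀ : ℝ := (E * Q) ^ 2 + (E * 2 * Q ^ 2 / 2 + |A| * (E * Q) + |B|) with hK₀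
    have hK₀0 : 0 ≤ K₀ := by positivity
    have hX0 : 0 ≤ X := by linarith
    calc ‖riemannZeta s‖ * ‖DZ 1 s ^ 2 - (DZ 2 s / 2 - A * DZ 1 s + B)‖
        ≤ (22 * X) * (K₀ * X ^ 2) := by gcongr
      _ = C₁ * X ^ 3 := by rw [hC₁]; ring
      _ ≤ C₁ * X ^ 4 := by
          have : X ^ 3 ≤ X ^ 4 := pow_le_pow_right₀ hX (by norm_num)
          gcongr
      _ ≤ (|M| + C₁ + 1) * X ^ 4 := by
          have : C₁ ≤ |M| + C₁ + 1 := by have := abs_nonneg M; linarith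
          gcongr

end Pool.Agent.Lib.MP_6bc78b_nt.GP.H16
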